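import Pool.Agent.Helper55.TB.UnionOf
import Pool.Agent.Helper46.TB.Ratio

/-!
# Project TB, module L: the union bound
-/

set_option autoImplicit false

namespace Pool.Agent.Lead.TB

open Finset

theorem union_bound {n : ℕ} (hn : 1 ≤ n) :
    (((ls n).filter fun σ => ∃ T₁ T₂ T₃ : Finset (Fin n), T₃.card ≤ T₁.card ∧ T₃.card ≤ T₂.card ∧
        cnt σ T₁ T₂ T₃ = 0 ∧
        128 * (n : ℝ) ^ 2 * (1 + Real.log T₃.card ^ 2) <
          (T₁.card : ℝ) * T₂.card * T₃.card).card : ℝ) ≤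
      Real.exp (-(2 * n)) / 3 * ((ls n).card : ℝ) :=
  union_bound_of_ratio (fun _ => fun G F hG hF => ratio G F hG hF) hn

end Pool.Agent.Lead.TB
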