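import Pool.Agent.Helper30.TB.Fibre
import Pool.Agent.Helper9.TB.Heavy

/-!
# Project TB, module L: the union bound
-/

set_option autoImplicit false

namespace Pool.Agent.Lead.TB

open Finset

/-- `cnt` is monotone in the set of symbols. -/
theorem h55_cnt_mono {n : ℕ} (σ : Fin n → Equiv.Perm (Fin n)) (T₁ T₂ : Finset (Fin n))
    {S S' : Finset (Fin n)} (h : S ⊆ S') : cnt σ T₁ T₂ S ≤ cnt σ T₁ T₂ S' :=
  Finset.sum_le_sum_of_subset h

theorem h55_loss (k : ℕ) :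
    loss (2 * 2 ^ k) - Real.log 2 / 2 * (32 * (1 + Real.log ((2 : ℝ) ^ k) ^ 2)) ≤ -7 := by
  have h1 : Real.log ((2 * 2 ^ k : ℕ) : ℝ) = Real.log 2 + Real.log ((2 : ℝ) ^ k) := by
    push_cast
    exact Real.log_mul (by norm_num) (by positivity)
  have hu : 0 ≤ Real.log ((2 : ℝ) ^ k) := Real.log_nonneg (one_le_pow₀ (by norm_num))
  unfold loss
  rw [h1]
  have hl1 := Real.log_two_gt_d9
  have hl2 := Real.log_two_lt_d9
  generalize Real.log ((2 : ℝ) ^ k) = u at hu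
  generalize Real.log 2 = l at hl1 hl2
  nlinarith [mul_nonneg hu hu, sq_nonneg (u - 1), mul_nonneg hu (sub_nonneg.2 hl2.le),
    mul_nonneg (mul_nonneg hu hu) (sub_nonneg.2 hl1.le)]

/-- The events of the union bound. -/
noncomputable def h55_ev (n : ℕ)
    (q : Finset (Fin n) × Finset (Fin n) × Finset (Fin n) × Finset (Fin n)) :
    Finset (Fin n → Equiv.Perm (Fin n)) := by
  classical
  exact (ls n).filter fun σ => (∃ k, q.2.2.1.card = 2 ^ k ∧ q.2.2.2.card = 2 ^ k) ∧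
    Disjoint q.2.2.1 q.2.2.2 ∧ cnt σ q.1 q.2.1 q.2.2.1 = 0 ∧
    32 * (n : ℝ) * (1 + Real.log (q.2.2.1.card : ℝ) ^ 2) ≤ (cnt σ q.1 q.2.1 q.2.2.2 : ℝ)

theorem h55_ev_card (n : ℕ) (ratio : ∀ k, RatioStmt n k)
    (q : Finset (Fin n) × Finset (Fin n) × Finset (Fin n) × Finset (Fin n)) :
    ((h55_ev n q).card : ℝ) ≤ Real.exp (-(7 * n)) * ((ls n).card : ℝ) := by
  classical
  obtain ⟨T₁, T₂, T₃, S⟩ := q
  by_cases h : (∃ k, T₃.card = 2 ^ k ∧ S.card = 2 ^ k) ∧ Disjoint T₃ S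
  · obtain ⟨⟨k, h3, hS⟩, hd⟩ := h
    have h1 := fibre_of_ratio (ratio k) T₁ T₂ T₃ S h3 hS hd (32 * (n : ℝ) * (1 + Real.log (T₃.card : ℝ) ^ 2))
    have h2 : (h55_ev n (T₁, T₂, T₃, S)).card ≤ ((ls n).filter fun σ => cnt σ T₁ T₂ T₃ = 0 ∧
        32 * (n : ℝ) * (1 + Real.log (T₃.card : ℝ) ^ 2) ≤ (cnt σ T₁ T₂ S : ℝ)).card := by
      refine Finset.card_le_card fun σ hσ => ?_
      simp only [h55_ev, Finset.mem_filter] at hσ ⊢
      exact ⟨hσ.1, hσ.2.2.2⟩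
    refine ((Nat.cast_le (α := ℝ)).2 h2).trans (h1.trans ?_)
    refine mul_le_mul_of_nonneg_right (Real.exp_le_exp.2 ?_) (Nat.cast_nonneg _)
    have h4 : ((T₃.card : ℕ) : ℝ) = (2 : ℝ) ^ k := by rw [h3]; push_cast; rfl
    rw [h4]
    have h5 := mul_le_mul_of_nonneg_left (h55_loss k) (Nat.cast_nonneg (α := ℝ) n)
    linarith
  · have h1 : h55_ev n (T₁, T₂, T₃, S) = ∅ := by
      refine Finset.filter_eq_empty_iff.2 fun σ _ hσ => h ⟨hσ.1, hσ.2.1⟩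
    rw [h1]
    simp only [Finset.card_empty, Nat.cast_zero]
    positivity

theorem h55_exists_ev {n : ℕ} (σ : Fin n → Equiv.Perm (Fin n)) (hσ : σ ∈ ls n)
    (T₁ T₂ T₃ : Finset (Fin n)) (h0 : cnt σ T₁ T₂ T₃ = 0)
    (hv : 128 * (n : ℝ) ^ 2 * (1 + Real.log T₃.card ^ 2) <
      (T₁.card : ℝ) * T₂.card * T₃.card) : ∃ q, σ ∈ h55_ev n q := by
  classical
  have hc1 : (T₁.card : ℝ) ≤ n := by exact_mod_cast (card_finset_fin_le T₁)
  have hc2 : (T₂.card : ℝ) ≤ n := by exact_mod_cast (card_finset_fin_le T₂)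
  have hc3 : T₃.card ≤ n := card_finset_fin_le T₃
  have hn0 : 0 < n := by
    rcases Nat.eq_zero_or_pos n with h | h
    · subst h
      have h1 : T₃.card = 0 := by omega
      simp [h1] at hv
    · exact h
  have hnR : (0 : ℝ) < n := by exact_mod_cast hn0
  have hlog : 0 ≤ Real.log T₃.card ^ 2 := sq_nonneg _
  have ht : 128 < T₃.card := by
    by_contra hcon
    have h1 : (T₃.card : ℝ) ≤ 128 := by exact_mod_cast (not_lt.1 hcon)
    have h2 : (T₁.card : ℝ) * T₂.card * T₃.card ≤ n * n * 128 := by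
      gcongr
    nlinarith [mul_nonneg (mul_nonneg hnR.le hnR.le) hlog]
  -- the scale
  obtain ⟨k, hk1, hk2⟩ : ∃ k, 2 * 2 ^ k ≤ T₃.card ∧ T₃.card ≤ 4 * 2 ^ k := by
    have h1 : 2 ^ Nat.log 2 T₃.card ≤ T₃.card := Nat.pow_log_le_self 2 (by omega)
    have h2 : T₃.card < 2 ^ (Nat.log 2 T₃.card + 1) := Nat.lt_pow_succ_log_self (by norm_num) _
    have h3 : 1 ≤ Nat.log 2 T₃.card := by
      by_contra hcon
      have : Nat.log 2 T₃.card = 0 := by omega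
      rw [this] at h2
      omega
    refine ⟨Nat.log 2 T₃.card - 1, ?_, ?_⟩
    · calc 2 * 2 ^ (Nat.log 2 T₃.card - 1) = 2 ^ (Nat.log 2 T₃.card - 1 + 1) := by ring
        _ = 2 ^ Nat.log 2 T₃.card := by congr 1; omega
        _ ≤ _ := h1
    · calc T₃.card ≤ 2 ^ (Nat.log 2 T₃.card + 1) := h2.le
        _ = 2 ^ (Nat.log 2 T₃.card - 1 + 2) := by congr 1; omega
        _ = 4 * 2 ^ (Nat.log 2 T₃.card - 1) := by ring
  obtain ⟨T, hTs, hTc⟩ := Finset.exists_subset_card_eq (s := T₃) (n := 2 ^ k) (by omega)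
  have h0T : cnt σ T₁ T₂ T = 0 := Nat.le_zero.1 (h0 ▸ h55_cnt_mono σ T₁ T₂ hTs)
  obtain ⟨S, hSc, hSd, hS⟩ := heavy σ hσ T₁ T₂ T hTc (by omega) h0T
  refine ⟨(T₁, T₂, T, S), ?_⟩
  simp only [h55_ev, Finset.mem_filter]
  refine ⟨hσ, ⟨k, hTc, hSc⟩, hSd, h0T, le_trans ?_ hS⟩
  rw [le_div_iff₀ hnR]
  have hk2R : (T₃.card : ℝ) ≤ 4 * ((2 ^ k : ℕ) : ℝ) := by exact_mod_cast hk2
  have hTR : (T.card : ℝ) ≤ T₃.card := by exact_mod_cast (Finset.card_le_card hTs)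
  have hT1 : (1 : ℝ) ≤ T.card := by
    rw [hTc]
    exact_mod_cast Nat.one_le_two_pow
  have hlogle : Real.log (T.card : ℝ) ^ 2 ≤ Real.log (T₃.card : ℝ) ^ 2 := by
    have h1 : 0 ≤ Real.log (T.card : ℝ) := Real.log_nonneg hT1
    have h2 : Real.log (T.card : ℝ) ≤ Real.log (T₃.card : ℝ) :=
      Real.log_le_log (by linarith) hTR
    gcongr
  have h3 : (T₁.card : ℝ) * T₂.card * T₃.card ≤ T₁.card * T₂.card * (4 * ((2 ^ k : ℕ) : ℝ)) := by
    gcongr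
  have h4 : 32 * (n : ℝ) * (1 + Real.log (T.card : ℝ) ^ 2) * n ≤
      32 * (n : ℝ) ^ 2 * (1 + Real.log (T₃.card : ℝ) ^ 2) := by
    have h5 : 32 * (n : ℝ) ^ 2 * (1 + Real.log (T.card : ℝ) ^ 2) ≤
        32 * (n : ℝ) ^ 2 * (1 + Real.log (T₃.card : ℝ) ^ 2) := by gcongr
    linarith
  linarith

/-! union bound over `(T₁, T₂, T₃, S)` and real estimates -/
theorem union_bound_of_ratio {n : ℕ} (ratio : ∀ k, RatioStmt n k) (hn : 1 ≤ n) :
    (((ls n).filter fun σ => ∃ T₁ T₂ T₃ : Finset (Fin n), T₃.card ≤ T₁.card ∧ T₃.card ≤ T₂.card ∧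
        cnt σ T₁ T₂ T₃ = 0 ∧
        128 * (n : ℝ) ^ 2 * (1 + Real.log T₃.card ^ 2) <
          (T₁.card : ℝ) * T₂.card * T₃.card).card : ℝ) ≤
      Real.exp (-(2 * n)) / 3 * ((ls n).card : ℝ) := by
  classical
  have h1 : ((ls n).filter fun σ => ∃ T₁ T₂ T₃ : Finset (Fin n), T₃.card ≤ T₁.card ∧
      T₃.card ≤ T₂.card ∧ cnt σ T₁ T₂ T₃ = 0 ∧ 128 * (n : ℝ) ^ 2 * (1 + Real.log T₃.card ^ 2) <
          (T₁.card : ℝ) * T₂.card * T₃.card) ⊆
      (univ : Finset (Finset (Fin n) × Finset (Fin n) × Finset (Fin n) × Finset (Fin n))).biUnion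
        (h55_ev n) := by
    intro σ hσ
    rw [Finset.mem_filter] at hσ
    obtain ⟨hσ, T₁, T₂, T₃, _, _, h0, hv⟩ := hσ
    obtain ⟨q, hq⟩ := h55_exists_ev σ hσ T₁ T₂ T₃ h0 hv
    exact Finset.mem_biUnion.2 ⟨q, Finset.mem_univ q, hq⟩
  have h2 := (Finset.card_le_card h1).trans Finset.card_biUnion_le
  have h3 : (∑ q : Finset (Fin n) × Finset (Fin n) × Finset (Fin n) × Finset (Fin n),
      ((h55_ev n q).card : ℝ)) ≤ (2 : ℝ) ^ (4 * n) * (Real.exp (-(7 * n)) * ((ls n).card : ℝ)) := by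
    refine (Finset.sum_le_card_nsmul _ _ _ fun q _ => h55_ev_card n ratio q).trans_eq ?_
    rw [nsmul_eq_mul]
    congr 1
    simp only [Finset.card_univ, Fintype.card_prod, Fintype.card_finset, Fintype.card_fin]
    push_cast
    ring
  have h4 : (2 : ℝ) ^ (4 * n) * Real.exp (-(7 * n)) ≤ Real.exp (-(2 * n)) / 3 := by
    have h5 : (2 : ℝ) ^ (4 * n) = Real.exp (Real.log 2 * (4 * n)) := by
      rw [← Real.rpow_natCast, Real.rpow_def_of_pos (by norm_num)]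
      push_cast
      rfl
    have h6 : (3 : ℝ) ≤ Real.exp 2 := by
      have := Real.add_one_le_exp (2 : ℝ)
      linarith
    have hnR : (1 : ℝ) ≤ n := by exact_mod_cast hn
    rw [h5, le_div_iff₀ (by norm_num)]
    calc Real.exp (Real.log 2 * (4 * n)) * Real.exp (-(7 * n)) * 3
        ≤ Real.exp (Real.log 2 * (4 * n)) * Real.exp (-(7 * n)) * Real.exp 2 := by gcongr
      _ = Real.exp (Real.log 2 * (4 * n) + -(7 * n) + 2) := by rw [Real.exp_add, Real.exp_add]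
      _ ≤ Real.exp (-(2 * n)) := by
          apply Real.exp_le_exp.2
          have := Real.log_two_lt_d9
          nlinarith
  calc _ ≤ ((∑ q : Finset (Fin n) × Finset (Fin n) × Finset (Fin n) × Finset (Fin n),
        (h55_ev n q).card : ℕ) : ℝ) := by exact_mod_cast h2
    _ = ∑ q : Finset (Fin n) × Finset (Fin n) × Finset (Fin n) × Finset (Fin n),
        ((h55_ev n q).card : ℝ) := by push_cast; rfl
    _ ≤ _ := h3
    _ = (2 : ℝ) ^ (4 * n) * Real.exp (-(7 * n)) * ((ls n).card : ℝ) := by ring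
    _ ≤ _ := by gcongr

end Pool.Agent.Lead.TB
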